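import Pool.Agent.U74.BC.Hier

/-!
# Balanced virtually cyclic edge groups and the Farrell-Jones conjecture

`C` is a class of groups with the closure properties `ClosedE C`, which contains the metabelian groups and
satisfies `AcylF C` (finitely generated groups with an acylindrical action on a tree with stabilizers in
`C` are in `C`). All this is known for the class of the groups whose wreath products with finite groups
satisfy the K-theoretic and L-theoretic Farrell-Jones conjecture with coefficients (Bartels, Lück, Reich,
Wegner, Knopf); this class also contains `GL_n(ℚ)` for all `n` (Rüping).

A group `A` is in `Cen C` if it is in `C` and for each element `z` of infinite order the quotient of the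
centralizer of `z` by `⟨z⟩` embeds in a group in `C`. (This holds for hyperbolic groups, where the
quotients are finite, for `CAT(0)` groups, and for solvable groups.) An element `c` of infinite order is
balanced if no power `c ^ p` with `p ≠ 0` is conjugate to a power `c ^ q` with `|q| ≠ |p|`.

* (1) Let `G` act on a tree without inversions such that the edge stabilizers are virtually
  cyclic and their elements of infinite order are balanced in `G`. If the vertex stabilizers are
  in `Cen C`, then `G` is in `Cen C`; in particular it is in `C`. There are no conditions on the
  way in which the edge groups are contained in the vertex groups: infinitely many of them can be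
  commensurable, the commensurators can be large, finite and infinite dihedral edge groups are allowed, and
  nothing has to be visible in abelian or nilpotent quotients of the vertex groups.
* (2) For amalgams it suffices that the factors are balanced, and the amalgam is balanced. So the
  theorem can be applied again.
* (3) Linear groups over a field `F` are in `Cen C` if all the groups `GL_n(F)` are in `C`.
* (4) So `Cen C` contains the smallest class `Hier` of groups which contains the groups `GL_n(ℤ)` and
  is closed under subgroups, overgroups of finite index, products, amalgams over virtually cyclic
  subgroups, and balanced groups which act on trees as in (1) with stabilizers in the class. For example,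
  `SL_3(ℤ) *_E SL_3(ℤ)` is in `C` for all virtually cyclic subgroups `E` and all embeddings.

Outline of the proof. By the theorem on cylinders (`N431.CE`, `N509.TK`) and `AcylF` only the
commensurators `K` of the infinite edge groups `⟨c⟩` have to be considered. They act on the subtrees
of the edges whose groups are commensurable with `⟨c⟩`. Since `c` is balanced, the elements which commute
with a power of `c` have index at most two in `K`, and this subgroup is a directed union of groups `L` with
a central power `z` of `c`. The group `L ⧸ ⟨z⟩` acts on the tree of the fixed points of `z` with
finite edge groups: it is in `C` by `Cen C` and the theorem on finite edge groups. For `Cen C G` one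
treats the centralizers of hyperbolic elements in the same way, with their axes. For (2), powers of
an elliptic element which are conjugate are compared along a path of the tree. For (3), the centralizer
`Z` of `z` acts by conjugation on the algebra of the matrices which commute with `z`, and the kernel is
abelian. `GL_n(ℤ)` is balanced: otherwise there is an element `y` of infinite order such that
`y ^ p` and `y ^ q` are conjugate for some `p`, `q` with a prime `l` which divides `q` and not `p`; then
the orders of `y` modulo the powers of `l` are prime to `l`, and they divide products of the order
modulo `l` and powers of `l`, so `y` has finite order.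
-/

set_option autoImplicit false

namespace Pool.Agent.Results.MP_6374fb_al.BalancedCyclicEdges

open Pool.Agent.Y110.FJ (ClosedE)
open Pool.Agent.N509.TX (AcylF)
open Pool.Agent.N431.CE (Es)
open Pool.Agent.Helper705_SA (IsAmalgam)
open Pool.Agent.U74.BC (VCyc Cen Balanced Hier)

/-- Let `C` be a class of groups with `ClosedE C` and `AcylF C` which contains the metabelian groups.
(1) Groups which act on a tree without inversions, with virtually cyclic edge stabilizers which are
balanced in `G` and with vertex stabilizers in `Cen C`, are in `Cen C`. (2) Amalgams of balanced groups in
`Cen C` over virtually cyclic groups are balanced and in `Cen C`. (3) If the groups `GL_n(F)` are in `C`,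
they are in `Cen C`. (4) If the groups `GL_n(ℚ)` are in `C`, then all groups in the hierarchy `Hier` are
balanced and in `Cen C`. -/
theorem result (C : ∀ (G : Type) [Group G], Prop) (hC : ClosedE C)
    (hM : ∀ (G : Type) [Group G], derivedSeries G 2 = ⊥ → C G) (hA : AcylF C) :
    (∀ (G V : Type) [Group G] [MulAction G V] (T : SimpleGraph V), T.IsTree →
      (∀ (g : G) (u v : V), T.Adj u v → T.Adj (g • u) (g • v)) →
      (∀ (g : G) (u v : V), T.Adj u v → ¬ (g • u = v ∧ g • v = u)) →
      (∀ u v : V, T.Adj u v → VCyc (Es G u v)) →
      (∀ u v : V, T.Adj u v → ∀ c ∈ Es G u v, ¬ IsOfFinOrder c →
        ∀ (g : G) (p q : ℤ), p ≠ 0 → q ≠ 0 → g * c ^ p * g⁻¹ = c ^ q → |p| = |q|) →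
      (∀ v : V, Cen C (MulAction.stabilizer G v)) → Cen C G) ∧
    (∀ (G : Type) [Group G] (A B : Subgroup G), IsAmalgam A B → VCyc (A ⊓ B : Subgroup G) →
      Cen C A → Cen C B → Balanced A → Balanced B → Cen C G ∧ Balanced G) ∧
    (∀ (F : Type) [Field F], (∀ n : ℕ, C (Matrix.GeneralLinearGroup (Fin n) F)) →
      ∀ n : ℕ, Cen C (Matrix.GeneralLinearGroup (Fin n) F)) ∧
    ((∀ n : ℕ, C (Matrix.GeneralLinearGroup (Fin n) ℚ)) →
      ∀ (G : Type) [Group G], Hier G → Cen C G ∧ Balanced G) :=
  ⟨fun _ _ _ _ T hT hact hinv hE hb hV =>
      Pool.Agent.U74.BC.Act.cen_all hC hM hA (T := T) ⟨hT, hact, hE, hV, hb⟩ hinv,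
    fun _ _ A B h hE hA' hB hbA hbB => Pool.Agent.U74.BC.am_result hC hM hA A B h hE hA' hB hbA hbB,
    fun _ _ hL _ => Pool.Agent.U74.BC.lin_cen hC hM hL (MonoidHom.id _) Function.injective_id,
    fun hL _ _ h => Pool.Agent.U74.BC.hier_result hC hM hA hL h⟩

end Pool.Agent.Results.MP_6374fb_al.BalancedCyclicEdges
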