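import Pool.Agent.U181.BK.Pred

/-!
# Braided automorphisms of free products over a linear order as kernels

Let `C` be a class of groups with the closure properties `ClosedE C` (all of them are published for the
class of the groups which satisfy the Farrell-Jones conjecture in algebraic K-theory with coefficients
in additive categories and finite wreath products).

Let `X` be any linearly ordered set, `H` any group, `w ∈ H` and `K ⊆ H`. Let `F` be the free product of
copies `H_x` of `H`, `x ∈ X`; `h_x` is the element of `H_x` given by `h ∈ H`. For a finite subset `Z` of
`X` let `F_Z` be the subgroup generated by the `H_z`, `z ∈ Z`, let `p_Z` be the product of the `w_z`,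
`z ∈ Z`, in increasing order, and let `Y_Z` be the subgroup generated by the `p h_u p⁻¹` with `u ∉ Z`,
`h ∈ H`, where `p` is the ordered product of the `w_z` with `z ∈ Z`, `z < u`.

* An automorphism of `F` is braided (`Braid w K`) if for some finite `Z` it and its inverse preserve
  `F_Z`, fix `p_Z` and the elements of `Y_Z`, and map the `k_z`, `k ∈ K`, `z ∈ Z`, to conjugates of such
  elements. These automorphisms form a group `A`.
* `AutN w K n` is the group of the automorphisms of the free product of `n` copies of `H` which fix
  `w_0 w_1 ⋯ w_(n-1)` and which, like their inverses, map the `k_i`, `k ∈ K`, to conjugates of such
  elements.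
* `γ` is locally braided (`LocBraid w K`) if it agrees locally with elements of `A`: for every finite
  `Z` there is a `b` in `A` such that `b⁻¹ γ` is the identity on `F_Z` and maps `Y_Z` onto itself.

Examples: for `H = ℤ`, `w` a generator and `K = {w}`, the group `AutN w K n` is the braid group `B_n` in
Artin's representation, and `A` is the braid group on the ordered set `X`. If `H` is the free group on
`a` and `b`, `w = [a, b]` and `K = ∅`, then `AutN w K n` is the mapping class group of the surface of
genus `n` with one boundary circle by the theorem of Dehn, Nielsen and Baer. For these groups the
Farrell-Jones conjecture is known.

The theorem: assume that `AutN w K n` is in `C` for all `n`. (1) Let `N` be a normal subgroup of `G`, `G/N`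
in `C`, and let `G` act on `F` by locally braided automorphisms, such that the action of `N` is faithful
and by braided automorphisms. Then `G` is in `C`. This is useful because many automorphisms are locally
braided, for any `X`, `H`, `w`, `K`:
(2) an automorphism `γ` is locally braided if it maps the data `F_W`, `p_W`, `Y_W`, `K` of arbitrarily
large finite sets `W` to those of finite sets `W'` with the same number of elements;
(3) the maps `h_x ↦ (τ_x h)_(θ x)` are locally braided automorphisms, where `θ` is an automorphism of the
ordered set `X` and the `τ_x` are automorphisms of `H` which fix `w` and map `K` onto itself;
(4) the jumps are locally braided automorphisms: if `η` is a permutation of `X` which is increasing outside `s`, and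
`η x < η s` for `x < s`, then `h_s ↦ h_(η s)`, `h_x ↦ (w_(η s))⁻¹ h_(η x) w_(η s)` if `s < x` and
`η x < η s`, and `h_x ↦ h_(η x)` for the other `x`. For example, if `X` is the union of `n` copies of the
natural numbers, one after the other, then the braid group on `X` and the jumps from one copy to a
later one generate the braided Houghton group with `n` ends.

Outline of the proof. The groups `A_Z` form a system which is moved by braidings: any two increasing
maps of `Z` to `X` are connected by a product of braidings of two elements (`conn`), and this product
determines the conjugation on `A_Z`, the group of the braided automorphisms for `Z`. For a jump, the elements of a finite set which are passed by `s` are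
passed one after the other (`exists_JR`). An automorphism of `F_Z` which fixes `p_Z` extends to an
automorphism of `F` which fixes `Y_Z` (`extAut`). So conjugation by a locally braided automorphism agrees on each
`A_Z` with conjugation by an element of `A`, and the group `A_W` of a large finite set realizes both. Then the
realization criterion of the starting library applies.
-/

set_option autoImplicit false

namespace Pool.Agent.Results.MP_6374fb_al.BraidedKernels

open Monoid
open Pool.Agent.Y110.FJ (ClosedE)
open Pool.Agent.U181.BK

theorem result (C : ∀ (G : Type) [Group G], Prop) (hC : ClosedE C)
    (X H : Type) [LinearOrder X] [Group H] (w : H) (K : Set H) :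
    ((∀ n : ℕ, C (AutN w K n)) → ExtIn C X w K) ∧ SendsLoc X w K ∧ OrderLoc X w K ∧
      JumpLoc X w K :=
  ⟨fun hB G _ N _ j hQ hG hN hj => main_pred hC w K hB G N hQ j hj hN hG,
    fun _ h1 => sends_pred h1, fun θ τ hτ => blk_pred w K θ τ hτ,
    fun η s h1 h2 => jmp_pred w K η s h1 h2⟩

end Pool.Agent.Results.MP_6374fb_al.BraidedKernels
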