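import Pool.Agent.U385.FJ.Ser

/-!
# Graphs of groups with compatible series of subgroups and the Farrell-Jones conjecture

`C` is any class of groups with the closure properties `ClosedE C` which contains the metabelian groups.
All this is known for the class of the groups whose wreath products with finite groups satisfy the
Farrell-Jones conjecture in algebraic K-theory (and L-theory) with coefficients in additive categories.

Let `G` act on a tree. A compatible series (`Series`) consists of subgroups
`1 = R 0 v ≤ R 1 v ≤ ... ≤ R n v` of the stabilizer `G_v` of each vertex `v`, invariant under conjugation
by elements of `G`, such that `R i u` and `R i v` meet the stabilizer of an edge `{u, v}` in the same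
group. The layers `R (i + 1) v / R i v` should be abelian; or, more generally, the images of the edge
groups in them should embed in the first homology, and their extensions by infinite cyclic subgroups of
`G_v / R i v` should be in `C`. There is no condition on the size of the edge groups, on the inclusions of
the edge groups (apart from the compatibility), and on the orbits of the edges and vertices.

* The subgroup `N` of `G` generated by all `R n v` is normal and meets `G_v` in `R n v`.
* If `G / N` is in `C` then `G` is in `C`.
* If the edge groups are contained in the groups `R n v`, and the groups `G_v / R n v` are in `C`, then
  `G` is in `C`.

Examples of the third statement.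

* `n = 1`: the stabilizer of each edge `{u, v}` is contained in abelian normal subgroups `R v` of `G_v` and
  `R u` of `G_u`, which meet it in the whole edge group; for instance the edge groups are central in the
  vertex groups, or the vertex groups are crystallographic groups and the edge groups consist of
  translations. If the vertex groups are abelian, then this is the theorem on graphs of
  abelian groups (Gandini, Meinert, Rüping).
* The vertex groups are nilpotent groups of class at most `n` and `R i v` is the upper central series. The
  condition says that the two inclusions of an edge group into vertex groups induce the
  same filtration of the edge group. There is no condition of finite generation.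
* The vertex groups are direct products (or extensions) of abelian or nilpotent groups
  with arbitrary groups in `C`, and the edge groups are contained in the first factors.

Outline of the proof. For a compatible family `R` of subgroups of the stabilizers (without
other conditions) a ping-pong argument shows that the group `N` generated by the `R v` meets `G_v` in
`R v`, and that there is a subtree which meets every orbit of `N` in one vertex; so `G / N` acts on this
subtree with vertex stabilizers `G_v / R v`, and the groups `R i v / R 1 v` form a compatible series
for this action. By induction one is reduced to a series of length `1`, where one can use the theorem on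
edge groups of a normal subgroup which embed in the first homology (`N509.TK.hcrit`).
-/

set_option autoImplicit false

namespace Pool.Agent.Results.MP_6374fb_al.CompatibleSeries

open Pool.Agent.Y110.FJ (ClosedE)
open Pool.Agent.U385.FJ (Series QC)

/-- Let `C` be a class of groups with the closure properties `ClosedE C` which contains the metabelian
groups. Let `G` act on a tree `T`, and let `R 0, ..., R n` be a compatible series of subgroups of the
vertex stabilizers. Then the group generated by the `R n v` is normal and meets the stabilizer of `v` in
`R n v`; if the quotient is in `C`, then `G` is in `C`; and this holds if the stabilizers of the edges
`{u, v}` are contained in `R n u` and the groups `G_v / R n v` are in `C`. -/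
theorem result (C : ∀ (G : Type) [Group G], Prop) (hC : ClosedE C)
    (hM : ∀ (G : Type) [Group G], derivedSeries G 2 = ⊥ → C G)
    {G V : Type} [Group G] [MulAction G V] (T : SimpleGraph V) (hT : T.IsTree)
    (hact : ∀ (g : G) (u v : V), T.Adj u v → T.Adj (g • u) (g • v))
    (n : ℕ) (R : ℕ → V → Subgroup G) (hR : Series C T n R) :
    (∀ (v : V) (g : G), g ∈ (⨆ v, R n v) → g • v = v → g ∈ R n v) ∧
    ∃ _ : (⨆ v, R n v).Normal, (C (G ⧸ ⨆ v, R n v) → C G) ∧
      ((∀ u v, T.Adj u v → ∀ g : G, g • u = u → g • v = v → g ∈ R n u) →
        (∀ v, QC C (MulAction.stabilizer G v) (R n v)) → C G) := by
  have hn := (hR.fm le_rfl).normal
  refine ⟨fun v g hg hv => Pool.Agent.U385.FJ.stab hT hact (hR.fm le_rfl) hg hv, hn,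
    fun hQ => Pool.Agent.U385.FJ.series_main hC hM hT hact hR hQ, fun hE hQ => ?_⟩
  exact Pool.Agent.U385.FJ.series_main hC hM hT hact hR
    (Pool.Agent.U385.FJ.quot_mem hC hT hact (hR.fm le_rfl) hE hQ)

end Pool.Agent.Results.MP_6374fb_al.CompatibleSeries
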