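import Pool.Agent.U919.NV.Law

/-!
# `GL_2` of noncommutative Ore domains with a degree function, and the Farrell–Jones conjecture

`C` is any class of groups with the closure properties `ClosedE C` which contains the metabelian groups.
The class of the groups all of whose wreath products with finite groups satisfy the K-theoretic
Farrell–Jones Conjecture with coefficients in additive categories has these properties.
-/

set_option autoImplicit false

namespace Pool.Agent.Results.MP_6374fb_al.NoncommutativeValuations

open Pool.Agent.U919.GE.Law (Cl)
open Pool.Agent.U919.NV.Law

/-- Let `C` be a class of groups with the closure properties `ClosedE C` which contains the metabelian
groups.

* Discrete groups of matrices of size two over a division ring, commutative or not, with a discrete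
  valuation, and with a descending chain of normal subgroups with trivial commutators modulo the next one
  which is separated by the valuations of the entries: such a group is in `C` if its quotient by the first
  of these subgroups is contained in a group in `C`.
* Let `R` be a left Ore domain with a degree function and a filtration such that for each `n` some of its
  members contain no nonzero elements of degree at most `n`. A subgroup of `GL_2(R)` is in `C` if its image
  modulo the first member of the filtration is.
* If `R` is contained in a polynomial ring over a domain: a subgroup of `GL_2(R)` is in `C` if its image at
  `X = 0` is.
* If `R = R_0 + R_1 + ...` is graded, `GL_2(R)` is in `C` iff `GL_2(R_0)` is, in particular if `R_0` is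
  finite or the ring of the integers.
* If `Q` is a left Ore domain, `Q[X]` is one, and `GL_2(Q[X])` is in `C` iff `GL_2(Q)` is. -/
theorem result (C : ∀ (G : Type) [Group G], Prop) (hC : Cl C) :
    Groups C ∧ OreDomains C ∧ Specialization C ∧ Graded C ∧ PolyRings C :=
  ⟨groups hC, oreDomains hC, specialization hC, graded hC, polyRings hC⟩

end Pool.Agent.Results.MP_6374fb_al.NoncommutativeValuations
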